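import Pool.Agent.V7H53.GP.Defs

/-!
# Unramified extensions in which the primes above `p` split completely: definitions
-/

set_option autoImplicit false

namespace Pool.Agent.V7H53.SP

open Module IntermediateField Pool.Agent.Q60.MU Pool.Agent.V7H44.MF Pool.Agent.V7H53.TR
open Pool.Agent.V7H53.GG Pool.Agent.V7H53.GP
open scoped Pointwise

/-- `M` is a finite Galois extension of `E` with abelian Galois group of exponent `p`, unramified at
all finite primes, in which the primes above `p` split completely (the automorphisms in the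
decomposition groups above `p` are trivial on `M`). -/
structure IsSplitElementary (p : ℕ) (E M : IntermediateField ℚ Qb) : Prop where
  le : E ≤ M
  finite : FiniteDimensional ℚ M
  normal : StableOver E M
  abelian : CommutesOver E M
  exponent : ∀ σ ∈ E.fixingSubgroup, ∀ x ∈ M, (σ ^ p) x = x
  unramified : ∀ A, ∀ σ ∈ inertia A, σ ∈ E.fixingSubgroup → ∀ x ∈ M, σ x = x
  split : ∀ A : ValuationSubring Qb, (p : Qb) ∈ A.nonunits → ∀ σ ∈ E.fixingSubgroup, σ • A = A →
    ∀ x ∈ M, σ x = x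

/-- The `p`-rank of the Galois group of the maximal abelian extension of `E` unramified at the finite
primes and totally split above `p` is at most `r`. -/
def SRankLe (p : ℕ) (E : IntermediateField ℚ Qb) (r : ℕ) : Prop :=
  ∀ M, IsSplitElementary p E M → finrank ℚ M ≤ p ^ r * finrank ℚ E

/-- This `p`-rank is at least `r`. -/
def SRankGe (p : ℕ) (E : IntermediateField ℚ Qb) (r : ℕ) : Prop :=
  ∃ M, IsSplitElementary p E M ∧ p ^ r * finrank ℚ E ≤ finrank ℚ M

/-- The ranks of the fields `F R₀, F R₁, …` are bounded. -/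
def SBdd (p : ℕ) (R : ℕ → IntermediateField ℚ Qb) (F : IntermediateField ℚ Qb) : Prop :=
  ∃ r, ∀ m, SRankLe p (F ⊔ R m) r

/-- The ranks of the layers of `N` exceed those of `F` at most by a constant. -/
def SRelBdd (p : ℕ) (R : ℕ → IntermediateField ℚ Qb) (F N : IntermediateField ℚ Qb) : Prop :=
  ∃ b, ∀ m t, SRankLe p (F ⊔ R m) t → SRankLe p (N ⊔ R m) (t + b)

/-- At the level `m` the rank of `N` exceeds that of `F` at least by
`d * ([N R_m : N] - [N R_m₀ : N])`. -/
def SGapFrom (p : ℕ) (R : ℕ → IntermediateField ℚ Qb) (F N : IntermediateField ℚ Qb)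
    (d m₀ m : ℕ) : Prop :=
  ∀ r s n n₀, SRankLe p (N ⊔ R m) r → SRankGe p (F ⊔ R m) s → LayerDegree R N m n →
    LayerDegree R N m₀ n₀ → s + d * n ≤ r + d * n₀

/-- The main part, for the layer `F'` of `p`-power degree over `F` in `N`, the dimension `d` and the
base level `m₀`. -/
def SMainPart (p : ℕ) (R : ℕ → IntermediateField ℚ Qb)
    (F N F' : IntermediateField ℚ Qb) (d m₀ : ℕ) : Prop :=
  (∀ m > m₀, ¬ SGapFrom p R F' N d m₀ m → SRelBdd p R F' N) ∧
  (0 < d → (SBdd p R N ↔ SBdd p R F ∧ ∃ m > m₀, ¬ SGapFrom p R F' N d m₀ m)) ∧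
  (SBdd p R F → ∀ E ≤ N, ¬ SBdd p R E → ∀ m > m₀, SGapFrom p R F' N d m₀ m) ∧
  (SBdd p R F → ∀ m > m₀, ∀ r n n₀ : ℕ, LayerDegree R N m n → LayerDegree R N m₀ n₀ →
    SRankLe p (N ⊔ R m) r → r + d * n₀ < d * n → ∀ E ≤ N, SBdd p R E)

/-- The part on the extensions of abelian number fields. -/
def SAbelianPart (p : ℕ) (R : ℕ → IntermediateField ℚ Qb)
    (F N F' : IntermediateField ℚ Qb) (d m₀ : ℕ) : Prop :=
  (∀ F₁ : IntermediateField ℚ Qb, FiniteDimensional ℚ F₁ → IsAbelianField F₁ → SBdd p R F₁) →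
  IsAbelianField F →
    (∀ E ≤ N, SBdd p R E ∨ ∀ m > m₀, SGapFrom p R F' N d m₀ m) ∧
    (0 < d → (SBdd p R N ↔ ∃ m > m₀, ¬ SGapFrom p R F' N d m₀ m))

end Pool.Agent.V7H53.SP
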