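import Pool.Agent.V7H53.SP.Defs
import Pool.Agent.V7H53.GP.Port
import Pool.Agent.V7H53.GG.Fld

/-!
# Unramified extensions in which the primes above `p` split completely: translation
-/

set_option autoImplicit false

namespace Pool.Agent.V7H53.SP

open Subgroup Module IntermediateField Pool.Agent.Q60.MU Pool.Agent.V7H44.MF Pool.Agent.V7H53.TR
open Pool.Agent.V7H53.GG
open scoped Pointwise commutatorElement

open Classical in
/-- The decomposition group of `A` if `A` is above `p`, and the inertia group otherwise. -/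
noncomputable def fam (p : ℕ) (A : ValuationSubring Qb) : Subgroup Gal(Qb/ℚ) :=
  if (p : Qb) ∈ A.nonunits then MulAction.stabilizer Gal(Qb/ℚ) A else inertia A

theorem mem_fam {p : ℕ} {A : ValuationSubring Qb} {σ : Gal(Qb/ℚ)} :
    σ ∈ fam p A ↔ σ ∈ inertia A ∨ ((p : Qb) ∈ A.nonunits ∧ σ • A = A) := by
  unfold fam
  split_ifs with h
  · rw [MulAction.mem_stabilizer_iff]
    exact ⟨fun h1 => Or.inr ⟨h, h1⟩, fun h1 => h1.elim (fun h2 => (mem_inertia.1 h2).1) fun h2 => h2.2⟩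
  · exact ⟨Or.inl, fun h1 => h1.elim id fun h2 => absurd h2.1 h⟩

theorem inertia_le_fam (p : ℕ) (A : ValuationSubring Qb) : inertia A ≤ fam p A := fun _ h =>
  mem_fam.2 (Or.inl h)

theorem fam_conj (p : ℕ) (g : Gal(Qb/ℚ)) (A : ValuationSubring Qb) :
    ∀ σ ∈ fam p A, g * σ * g⁻¹ ∈ fam p (g • A) := by
  intro σ hσ
  rcases mem_fam.1 hσ with h | ⟨h, h1⟩
  · exact mem_fam.2 (Or.inl (inertia_conj g A σ h))
  · refine mem_fam.2 (Or.inr ⟨?_, ?_⟩)
    · apply nonunits_smul g⁻¹ (g • A) p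
      rwa [inv_smul_smul]
    · rw [mul_smul, inv_smul_smul, mul_smul, h1]

theorem rankLe_iff' {p : ℕ} (E : IntermediateField ℚ Qb) [FiniteDimensional ℚ E]
    (r : ℕ) : RankLe p (fam p) E.fixingSubgroup (p ^ r) ↔ SRankLe p E r := by
  have hK0 := index_ne_zero' E
  constructor
  · intro h M hEl
    obtain ⟨hEM, hM, h1, h2, h3, h4, h4'⟩ := hEl
    have hWK : M.fixingSubgroup ≤ E.fixingSubgroup := fixingSubgroup_le hEM
    have hmul := relIndex_mul_index hWK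
    have hW0 := index_ne_zero' M
    have h5 := h M.fixingSubgroup hWK M.fixingSubgroup_isOpen (by
      intro h0
      rw [h0, zero_mul] at hmul
      exact hW0 hmul.symm) (by
      rintro x ((⟨a, ha, rfl⟩ | ⟨a, ha, b, hb, rfl⟩) | ⟨hx, w, hw⟩)
      · exact (mem_fixingSubgroup_iff _ _).2 fun x hx => h3 a ha x hx
      · refine (mem_fixingSubgroup_iff _ _).2 fun x hx => ?_
        have hb' : b⁻¹ x ∈ M := h1 _ (inv_mem hb) x hx
        have ha' : a⁻¹ (b⁻¹ x) ∈ M := h1 _ (inv_mem ha) _ hb'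
        have h6 := h2 a ha b hb _ ha'
        show ⁅a, b⁆ x = x
        have h7 : ⁅a, b⁆ x = a (b (a⁻¹ (b⁻¹ x))) := rfl
        have h8 : a (a⁻¹ (b⁻¹ x)) = b⁻¹ x := by
          rw [← AlgEquiv.mul_apply, mul_inv_cancel, AlgEquiv.one_apply]
        have h9 : b (b⁻¹ x) = x := by
          rw [← AlgEquiv.mul_apply, mul_inv_cancel, AlgEquiv.one_apply]
        rw [h7, h6, h8, h9]
      · rcases mem_fam.1 hw with h10 | ⟨h10, h11⟩
        · exact (mem_fixingSubgroup_iff _ _).2 fun y hy => h4 w x h10 hx y hy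
        · exact (mem_fixingSubgroup_iff _ _).2 fun y hy => h4' w h10 x hx h11 y hy)
    rw [finrank_eq_fixingSubgroup_index, finrank_eq_fixingSubgroup_index, ← hmul]
    exact Nat.mul_le_mul_right _ h5
  · intro h W hWK hWo hWf hg
    have hmul := relIndex_mul_index hWK
    have hW0 : W.index ≠ 0 := by
      rw [← hmul]
      exact mul_ne_zero hWf hK0
    have hfix := fix_fixed hWo
    have hEM : E ≤ fixedField W := (le_iff_le _ _).2 hWK
    have hfd := finite_fixed hWo hW0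
    have hmem : ∀ x, x ∈ fixedField W ↔ ∀ w ∈ W, w x = x := fun x => mem_fixedField_iff _ _
    have h5 := h (fixedField W) ⟨hEM, hfd, (by
      intro σ hσ x hx
      rw [hmem] at hx ⊢
      intro w hw
      have h1 : ⁅σ⁻¹, w⁆ ∈ W := hg (Or.inl (Or.inr ⟨σ⁻¹, inv_mem hσ, w, hWK hw, rfl⟩))
      have h2 : w (σ x) = σ ((⁅σ⁻¹, w⁆ * w) x) := by
        rw [← AlgEquiv.mul_apply, ← AlgEquiv.mul_apply]
        congr 1
        rw [commutatorElement_def]
        group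
      rw [h2, hx _ (W.mul_mem h1 hw)]), (by
      intro σ hσ τ hτ x hx
      rw [hmem] at hx
      have h1 : ⁅σ⁻¹, τ⁻¹⁆ ∈ W := hg (Or.inl (Or.inr ⟨σ⁻¹, inv_mem hσ, τ⁻¹, inv_mem hτ, rfl⟩))
      have h2 : σ (τ x) = τ (σ (⁅σ⁻¹, τ⁻¹⁆ x)) := by
        rw [← AlgEquiv.mul_apply, ← AlgEquiv.mul_apply, ← AlgEquiv.mul_apply]
        congr 1
        rw [commutatorElement_def]
        group
      rw [h2, hx _ h1]), (by
      intro σ hσ x hx
      rw [hmem] at hx
      exact hx _ (hg (Or.inl (Or.inl ⟨σ, hσ, rfl⟩)))), (by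
      intro A σ hσA hσ x hx
      rw [hmem] at hx
      exact hx _ (hg (Or.inr ⟨hσ, A, mem_fam.2 (Or.inl hσA)⟩))), (by
      intro A hA σ hσ hσA x hx
      rw [hmem] at hx
      exact hx _ (hg (Or.inr ⟨hσ, A, mem_fam.2 (Or.inr ⟨hA, hσA⟩)⟩)))⟩
    rw [finrank_eq_fixingSubgroup_index, finrank_eq_fixingSubgroup_index, hfix, ← hmul] at h5
    exact Nat.le_of_mul_le_mul_right h5 (Nat.pos_of_ne_zero hK0)

theorem rankLe_level' {p : ℕ} {R : ℕ → IntermediateField ℚ Qb}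
    (hR : ∀ m, FiniteDimensional ℚ (R m)) (F : IntermediateField ℚ Qb) [FiniteDimensional ℚ F]
    (m r : ℕ) : RankLe p (fam p) (F.fixingSubgroup ⊓ (R m).fixingSubgroup) (p ^ r) ↔
      SRankLe p (F ⊔ R m) r := by
  have := hR m
  rw [← rankLe_iff', fixingSubgroup_sup]

theorem valid_of_elementary' {p : ℕ} {E : IntermediateField ℚ Qb} [FiniteDimensional ℚ E]
    {r : ℕ} (h : SRankGe p E r) :
    ∃ Q, Valid p (fam p) E.fixingSubgroup Q ∧ p ^ r ≤ Q.relIndex E.fixingSubgroup := by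
  have hK0 := index_ne_zero' E
  obtain ⟨M, ⟨hEM, hM, h1, h2, h3, h4, h4'⟩, h5⟩ := h
  have hWK : M.fixingSubgroup ≤ E.fixingSubgroup := fixingSubgroup_le hEM
  have hmul := relIndex_mul_index hWK
  have hW0 := index_ne_zero' M
  refine ⟨M.fixingSubgroup, ⟨hWK, M.fixingSubgroup_isOpen, ?_, ?_⟩, ?_⟩
  · intro h0
    rw [h0, zero_mul] at hmul
    exact hW0 hmul.symm
  · rintro x ((⟨a, ha, rfl⟩ | ⟨a, ha, b, hb, rfl⟩) | ⟨hx, w, hw⟩)
    · exact (mem_fixingSubgroup_iff _ _).2 fun x hx => h3 a ha x hx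
    · refine (mem_fixingSubgroup_iff _ _).2 fun x hx => ?_
      have hb' : b⁻¹ x ∈ M := h1 _ (inv_mem hb) x hx
      have ha' : a⁻¹ (b⁻¹ x) ∈ M := h1 _ (inv_mem ha) _ hb'
      have h6 := h2 a ha b hb _ ha'
      show ⁅a, b⁆ x = x
      have h7 : ⁅a, b⁆ x = a (b (a⁻¹ (b⁻¹ x))) := rfl
      have h8 : a (a⁻¹ (b⁻¹ x)) = b⁻¹ x := by
        rw [← AlgEquiv.mul_apply, mul_inv_cancel, AlgEquiv.one_apply]
      have h9 : b (b⁻¹ x) = x := by
        rw [← AlgEquiv.mul_apply, mul_inv_cancel, AlgEquiv.one_apply]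
      rw [h7, h6, h8, h9]
    · rcases mem_fam.1 hw with h10 | ⟨h10, h11⟩
      · exact (mem_fixingSubgroup_iff _ _).2 fun y hy => h4 w x h10 hx y hy
      · exact (mem_fixingSubgroup_iff _ _).2 fun y hy => h4' w h10 x hx h11 y hy
  · rw [finrank_eq_fixingSubgroup_index, finrank_eq_fixingSubgroup_index, ← hmul] at h5
    exact Nat.le_of_mul_le_mul_right h5 (Nat.pos_of_ne_zero hK0)

theorem rank_zero' {p : ℕ} {E : IntermediateField ℚ Qb} (hE : FiniteDimensional ℚ E) :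
    SRankGe p E 0 := by
  have h : ∀ σ ∈ E.fixingSubgroup, ∀ x ∈ E, σ x = x := fun σ hσ x hx =>
    (mem_fixingSubgroup_iff _ _).1 hσ x hx
  refine ⟨E, ⟨le_rfl, hE, fun σ hσ x hx => ?_, fun σ hσ τ hτ x hx => ?_, fun σ hσ x hx => ?_,
    fun A σ _ hσ x hx => h σ hσ x hx, fun A _ σ hσ _ x hx => h σ hσ x hx⟩,
    by rw [pow_zero, one_mul]⟩
  · rw [h σ hσ x hx]
    exact hx
  · rw [h τ hτ x hx, h σ hσ x hx, h τ hτ x hx]
  · exact h (σ ^ p) (Subgroup.pow_mem _ hσ p) x hx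

/-- Bounded ramification. -/
theorem ram_fam {p : ℕ} (hp : p.Prime) {R : ℕ → IntermediateField ℚ Qb} (hd : FinDec R)
    {K : Subgroup Gal(Qb/ℚ)} (hKo : IsOpen (K : Set Gal(Qb/ℚ))) (hKf : K.index ≠ 0) :
    ∃ t, ∀ m, ∃ T : Finset (ValuationSubring Qb), T.card ≤ t ∧
        ∀ w, fam p w ⊓ (R m).fixingSubgroup ≤ K ∨
          ∃ u ∈ T, ∃ d ∈ (R m).fixingSubgroup, w = d • u := by
  classical
  obtain ⟨t, ht⟩ := ramified_of_finDec hd hKo hKf
  obtain ⟨t', ht'⟩ := hd p hp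
  refine ⟨t + t', fun m => ?_⟩
  obtain ⟨T, hT, h1⟩ := ht m
  obtain ⟨T', hT', h2⟩ := ht' m
  refine ⟨T ∪ T', (Finset.card_union_le _ _).trans (Nat.add_le_add hT hT'), fun w => ?_⟩
  by_cases hw : (p : Qb) ∈ w.nonunits
  · obtain ⟨B, hB, σ, hσ, h⟩ := h2 w hw
    exact Or.inr ⟨B, Finset.mem_union_right _ hB, σ, hσ, h⟩
  · rcases h1 w with h | ⟨u, hu, d, hd, h⟩
    · refine Or.inl ?_
      unfold fam
      rwa [if_neg hw]
    · exact Or.inr ⟨u, Finset.mem_union_left _ hu, d, hd, h⟩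

end Pool.Agent.V7H53.SP
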